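import Pool.Agent.Run7.h477.RK.Iface

/-! Piece BN of project RK (helper477): `T K e` is two-transitive on the isotropic points, with a
split BN-pair. -/

set_option autoImplicit false
set_option linter.unusedSectionVars false

namespace Run7.h781.RK

open Matrix Run7.h477.RK

section
variable {K : Type} [Field K] [CharP K 2] [Finite K] {e : ℕ}

/-- the action of the group on vectors -/
abbrev ac (g : (Matrix (Fin 3) (Fin 3) K)ˣ) (v : Fin 3 → K) : Fin 3 → K :=
  (g : Matrix (Fin 3) (Fin 3) K).mulVec v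

lemma ac_mul (g h : (Matrix (Fin 3) (Fin 3) K)ˣ) (v : Fin 3 → K) : ac (g * h) v = ac g (ac h v) := by
  simp only [ac, Units.val_mul, Matrix.mulVec_mulVec]

lemma ac_one (v : Fin 3 → K) : ac (1 : (Matrix (Fin 3) (Fin 3) K)ˣ) v = v := by
  simp [ac]

lemma ac_inv (g : (Matrix (Fin 3) (Fin 3) K)ˣ) (v : Fin 3 → K) : ac g⁻¹ (ac g v) = v := by
  rw [← ac_mul, inv_mul_cancel, ac_one]

lemma ac_inv' (g : (Matrix (Fin 3) (Fin 3) K)ˣ) (v : Fin 3 → K) : ac g (ac g⁻¹ v) = v := by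
  rw [← ac_mul, mul_inv_cancel, ac_one]

lemma ac_smul (g : (Matrix (Fin 3) (Fin 3) K)ˣ) (c : K) (v : Fin 3 → K) :
    ac g (c • v) = c • ac g v := Matrix.mulVec_smul _ _ _

lemma ac_add (g : (Matrix (Fin 3) (Fin 3) K)ˣ) (v w : Fin 3 → K) :
    ac g (v + w) = ac g v + ac g w := Matrix.mulVec_add _ _ _

lemma mk_eq_iff {x y : Fin 3 → K} (hx0 : x ≠ 0) (hx : hf e x x = 0) (hy0 : y ≠ 0)
    (hy : hf e y y = 0) : mkPt x hx0 hx = mkPt y hy0 hy ↔ ∃ c : K, y = c • x := by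
  have h1 : mkPt x hx0 hx = mkPt y hy0 hy ↔ (K ∙ x) = K ∙ y := Subtype.ext_iff
  rw [h1]
  constructor
  · intro h
    have h2 : y ∈ K ∙ x := by rw [h]; exact Submodule.mem_span_singleton_self y
    obtain ⟨c, hc⟩ := Submodule.mem_span_singleton.1 h2
    exact ⟨c, hc.symm⟩
  · rintro ⟨c, rfl⟩
    have hc : c ≠ 0 := by rintro rfl; exact hy0 (zero_smul _ _)
    exact (Submodule.span_singleton_smul_eq (IsUnit.mk0 c hc) x).symm

lemma exists_rep (p : Pt K e) : ∃ (x : Fin 3 → K) (h0 : x ≠ 0) (h : hf e x x = 0),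
    p = mkPt x h0 h := by
  obtain ⟨L, x, h0, h, hL⟩ := p
  exact ⟨x, h0, h, Subtype.ext hL⟩

/-- the transitivity hypothesis -/
def Tr (K : Type) [Field K] (e : ℕ) : Prop :=
  ∀ x y : Fin 3 → K, x ≠ 0 → y ≠ 0 → hf e x x = 0 → hf e y y = 0 →
    ∃ g ∈ T K e, ∃ μ : K, μ ≠ 0 ∧ ac g x = μ • y

/-- the standard isotropic vector -/
def x0 : Fin 3 → K := fun l => if l = 2 then 0 else 1

lemma x0_ne : (x0 : Fin 3 → K) ≠ 0 := by
  intro h
  have := congrFun h 0
  simp [x0] at this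

lemma x0_iso : hf e (x0 : Fin 3 → K) x0 = 0 := by
  simp only [hf, Fin.sum_univ_three, x0]
  norm_num [bar_one, Fin.ext_iff]
  exact two0

/-- orthogonal isotropic vectors are proportional -/
lemma orth (hK : Nat.card K = 2 ^ (2 * e)) (ht : Tr K e) {x y : Fin 3 → K} (hx0 : x ≠ 0)
    (hx : hf e x x = 0) (hy : hf e y y = 0) (h : hf e y x = 0) : ∃ c : K, y = c • x := by
  obtain ⟨g, hg, μ, hμ, hgx⟩ := ht x x0 hx0 x0_ne hx x0_iso
  set y' := ac g y with hy'
  have h1 : hf e y' x0 = 0 := by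
    have h2 : hf e y' (ac g x) = 0 := by rw [hy', hf_T hK hg]; exact h
    rw [hgx, hf_smul_right] at h2
    exact (mul_eq_zero.1 h2).resolve_left (bar_ne_zero hμ)
  have h2 : hf e y' y' = 0 := by rw [hy', hf_T hK hg]; exact hy
  simp only [hf, Fin.sum_univ_three, x0] at h1 h2
  norm_num [bar_one, bar_zero, Fin.ext_iff] at h1
  have h3 : y' 1 = y' 0 := by
    have := add_self0 (y' 0)
    linear_combination h1 - this
  have h4 : y' 2 = 0 := by
    rw [h3] at h2
    have h5 := add_self0 (y' 0 * bar e (y' 0))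
    have h6 : y' 2 * bar e (y' 2) = 0 := by linear_combination h2 - h5
    rcases mul_eq_zero.1 h6 with h7 | h7
    · exact h7
    · exact bar_eq_zero.1 h7
  have h5 : y' = y' 0 • x0 := by
    funext l
    fin_cases l
    · simp [x0]
    · simp [x0, h3]
    · simp [x0, h4]
  refine ⟨y' 0 * μ⁻¹, ?_⟩
  have h6 : ac g⁻¹ y' = y := by rw [hy', ac_inv]
  have h7 : (x0 : Fin 3 → K) = μ⁻¹ • ac g x := by rw [hgx, smul_smul, inv_mul_cancel₀ hμ, one_smul]
  have h8 : ac g⁻¹ y' = (y' 0 * μ⁻¹) • x := by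
    calc ac g⁻¹ y' = ac g⁻¹ (y' 0 • x0) := by rw [← h5]
      _ = y' 0 • ac g⁻¹ (μ⁻¹ • ac g x) := by rw [ac_smul, ← h7]
      _ = (y' 0 * μ⁻¹) • x := by rw [ac_smul, ac_inv, smul_smul]
  rw [← h6]
  exact h8

/-- a representative which is normalised with respect to `x` -/
lemma exists_rep' (hK : Nat.card K = 2 ^ (2 * e)) (ht : Tr K e) {x : Fin 3 → K} (hx0 : x ≠ 0)
    (hx : hf e x x = 0) (p : Pt K e) (hp : p ≠ mkPt x hx0 hx) :
    ∃ (y : Fin 3 → K) (h0 : y ≠ 0) (h : hf e y y = 0), p = mkPt y h0 h ∧ hf e y x = 1 := by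
  obtain ⟨y, h0, h, rfl⟩ := exists_rep p
  have h1 : hf e y x ≠ 0 := by
    intro h2
    obtain ⟨c, hc⟩ := orth hK ht hx0 hx h h2
    exact hp ((mk_eq_iff hx0 hx h0 h).2 ⟨c, hc⟩).symm
  set d := (hf e y x)⁻¹ with hd
  have hd0 : d ≠ 0 := inv_ne_zero h1
  refine ⟨d • y, smul_ne_zero hd0 h0, by rw [hf_smul_left, hf_smul_right, h]; ring, ?_, ?_⟩
  · exact (mk_eq_iff h0 h _ _).2 ⟨d, rfl⟩
  · rw [hf_smul_left, hd, inv_mul_cancel₀ h1]

lemma phi_mk (hK : Nat.card K = 2 ^ (2 * e)) (g : T K e) (x : Fin 3 → K) (h0 : x ≠ 0)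
    (h : hf e x x = 0) {y : Fin 3 → K} (hy0 : y ≠ 0) (hy : hf e y y = 0) (c : K)
    (hc : ac g.1 x = c • y) : phi hK g (mkPt x h0 h) = mkPt y hy0 hy := by
  rw [phi_apply, actPt_mk hK g x h0 h]
  exact ((mk_eq_iff hy0 hy _ _).2 ⟨c, hc⟩).symm

lemma phi_mk' (hK : Nat.card K = 2 ^ (2 * e)) (g : T K e) (x : Fin 3 → K) (h0 : x ≠ 0)
    (h : hf e x x = 0) {y : Fin 3 → K} (hy0 : y ≠ 0) (hy : hf e y y = 0)
    (hp : phi hK g (mkPt x h0 h) = mkPt y hy0 hy) : ∃ c : K, ac g.1 x = c • y := by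
  rw [phi_apply, actPt_mk hK g x h0 h] at hp
  exact (mk_eq_iff hy0 hy _ _).1 hp.symm

/-- the unipotent radical -/
def UU (hK : Nat.card K = 2 ^ (2 * e)) : Subgroup (T K e) where
  carrier := {g | ac g.1 x0 = x0 ∧ ∀ v, hf e v x0 = 0 → ∃ c : K, ac g.1 v = v + c • x0}
  mul_mem' := by
    rintro g h ⟨hg1, hg2⟩ ⟨hh1, hh2⟩
    refine ⟨?_, fun v hv => ?_⟩
    · show ac (g.1 * h.1) x0 = x0
      rw [ac_mul, hh1, hg1]
    · obtain ⟨c, hc⟩ := hh2 v hv
      obtain ⟨d, hd⟩ := hg2 v hv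
      refine ⟨d + c, ?_⟩
      show ac (g.1 * h.1) v = _
      rw [ac_mul, hc, ac_add, ac_smul, hg1, hd]
      module
  one_mem' := ⟨ac_one _, fun v _ => ⟨0, by
    show ac 1 v = _
    rw [ac_one, zero_smul, add_zero]⟩⟩
  inv_mem' := by
    rintro g ⟨hg1, hg2⟩
    refine ⟨?_, fun v hv => ?_⟩
    · show ac g.1⁻¹ x0 = x0
      conv_lhs => rw [← hg1]
      rw [ac_inv]
    · obtain ⟨c, hc⟩ := hg2 v hv
      refine ⟨-c, ?_⟩
      show ac g.1⁻¹ v = _
      have h1 : v = ac g.1 v + (-c) • x0 := by rw [hc]; module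
      conv_lhs => rw [h1]
      have h2 : ac g.1⁻¹ x0 = x0 := by
        conv_lhs => rw [← hg1]
        rw [ac_inv]
      rw [ac_add, ac_smul, ac_inv, h2]

/-- a unipotent element which fixes a further point is trivial -/
lemma uniq_one (hK : Nat.card K = 2 ^ (2 * e)) {w : T K e} (hw : w ∈ UU hK) {y : Fin 3 → K}
    (hy : hf e y y = 0) (hyx : hf e y x0 = 1) {ν : K} (hν : ac w.1 y = ν • y) : w = 1 := by
  obtain ⟨hw1, hw2⟩ := hw
  have hν1 : ν = 1 := by
    have h1 : hf e (ac w.1 y) (ac w.1 x0) = hf e y x0 := hf_T hK w.2 y x0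
    rw [hν, hw1, hf_smul_left, hyx, mul_one] at h1
    exact h1
  rw [hν1, one_smul] at hν
  have hxy : hf e x0 y = 1 := by rw [← hf_bar hK, hyx, bar_one]
  have hn : ∀ n, hf e n x0 = 0 → hf e n y = 0 → ac w.1 n = n := by
    intro n h1 h2
    obtain ⟨c, hc⟩ := hw2 n h1
    have h3 : hf e (ac w.1 n) (ac w.1 y) = hf e n y := hf_T hK w.2 n y
    rw [hν, hc, hf_add_left, hf_smul_left, h2, hxy, mul_one, zero_add] at h3
    rw [hc, h3, zero_smul, add_zero]
  have hall : ∀ v, ac w.1 v = v := by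
    intro v
    set n := v + hf e v y • x0 + hf e v x0 • y with hnd
    have h1 : hf e n x0 = 0 := by
      rw [hnd, hf_add_left, hf_add_left, hf_smul_left, hf_smul_left, x0_iso, hyx]
      have := add_self0 (hf e v x0)
      linear_combination this
    have h2 : hf e n y = 0 := by
      rw [hnd, hf_add_left, hf_add_left, hf_smul_left, hf_smul_left, hy, hxy]
      have := add_self0 (hf e v y)
      linear_combination this
    have h3 := hn n h1 h2
    have h4 : v = n + (-(hf e v y)) • x0 + (-(hf e v x0)) • y := by rw [hnd]; module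
    conv_lhs => rw [h4]
    rw [ac_add, ac_add, ac_smul, ac_smul, h3, hw1, hν, ← h4]
  apply Subtype.ext
  apply Units.ext
  refine ext_mulVec fun v => ?_
  refine (hall v).trans ?_
  simp

end

/-- Piece BN. -/
theorem t_BN : S_PL → S_TRA → S_UNP → S_BN := by
  intro hPL hTRA hUNP K _ _ _ e hK he
  have ht : Tr K e := fun x y hx0 hy0 hx hy =>
    hTRA K e hK (T K e) (fun i j hij a b hab => hPL K e hK i j hij a b hab) x y hx0 hy0 hx hy
  have hfin : Finite (Pt K e) := by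
    have : Finite (Submodule K (Fin 3 → K)) :=
      Finite.of_injective (fun S : Submodule K (Fin 3 → K) => (S : Set (Fin 3 → K)))
        SetLike.coe_injective
    unfold Pt
    infer_instance
  refine ⟨hfin, ?_, ?_, ?_⟩
  · -- three points
    let xx : Fin 3 → Fin 3 → K := fun i l => if l = i then 0 else 1
    have hxx0 : ∀ i, xx i ≠ 0 := by
      intro i h
      have h1 := congrFun h (i + 1)
      have h2 : i + 1 ≠ i := by fin_cases i <;> decide
      simp only [xx, if_neg h2, Pi.zero_apply] at h1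
      exact one_ne_zero h1
    have hxxi : ∀ i, hf e (xx i) (xx i) = 0 := by
      intro i
      have h := two0 (K := K)
      fin_cases i <;>
      · simp only [hf, Fin.sum_univ_three, xx]
        norm_num [bar_one, Fin.ext_iff]
        exact h
    have hinj : Function.Injective (fun i : Fin 3 => (mkPt (xx i) (hxx0 i) (hxxi i) : Pt K e)) := by
      intro i j hij
      by_contra hne
      obtain ⟨c, hc⟩ := (mk_eq_iff (hxx0 i) (hxxi i) (hxx0 j) (hxxi j)).1 hij
      have h1 := congrFun hc i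
      simp only [xx, Pi.smul_apply, smul_eq_mul, if_true, mul_zero, if_neg hne] at h1
      exact one_ne_zero h1
    have := Nat.card_le_card_of_injective _ hinj
    simpa using this
  · -- two-transitivity
    intro a b c d hab hcd
    obtain ⟨x, hx0, hx, rfl⟩ := exists_rep a
    obtain ⟨y, hy0, hy, rfl, hyx⟩ := exists_rep' hK ht hx0 hx b (Ne.symm hab)
    obtain ⟨z, hz0, hz, rfl⟩ := exists_rep c
    obtain ⟨w, hw0, hw, rfl, hwz⟩ := exists_rep' hK ht hz0 hz d (Ne.symm hcd)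
    obtain ⟨g, hg, μ, hμ, hgx⟩ := ht x z hx0 hz0 hx hz
    set y' := bar e μ • ac g y with hy'
    have hμ' : bar e μ ≠ 0 := bar_ne_zero hμ
    have h1 : hf e y' z = 1 := by
      have h2 : hf e (ac g y) (ac g x) = 1 := by rw [hf_T hK hg]; exact hyx
      rw [hgx, hf_smul_right] at h2
      rw [hy', hf_smul_left]
      exact h2
    have h2 : hf e y' y' = 0 := by
      rw [hy', hf_smul_left, hf_smul_right, hf_T hK hg, hy]; ring
    obtain ⟨g2, hg2, h3, h4, -⟩ := hUNP K e hK he z y' w hz h2 hw h1 hwz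
    refine ⟨⟨g2 * g, (T K e).mul_mem hg2 hg⟩, ?_, ?_⟩
    · refine phi_mk hK _ x hx0 hx hz0 hz μ ?_
      show ac (g2 * g) x = _
      rw [ac_mul, hgx, ac_smul]
      exact congrArg _ h3
    · refine phi_mk hK _ y hy0 hy hw0 hw (bar e μ)⁻¹ ?_
      show ac (g2 * g) y = _
      have h5 : ac g y = (bar e μ)⁻¹ • y' := by
        rw [hy', smul_smul, inv_mul_cancel₀ hμ', one_smul]
      rw [ac_mul, h5, ac_smul]
      exact congrArg _ h4
  · -- split BN-pair
    refine ⟨mkPt x0 x0_ne x0_iso, UU hK, ?_, ?_, ?_⟩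
    · intro u hu
      exact phi_mk hK u x0 x0_ne x0_iso x0_ne x0_iso 1 (by rw [one_smul]; exact hu.1)
    · intro u hu h hh
      obtain ⟨ν, hν⟩ := phi_mk' hK h x0 x0_ne x0_iso x0_ne x0_iso hh
      have hν0 : ν ≠ 0 := by
        rintro rfl
        rw [zero_smul] at hν
        exact mulVec_ne_zero h.1 x0_ne hν
      have hinv : ac h.1⁻¹ x0 = ν⁻¹ • x0 := by
        have h1 : (x0 : Fin 3 → K) = ν⁻¹ • ac h.1 x0 := by
          rw [hν, smul_smul, inv_mul_cancel₀ hν0, one_smul]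
        conv_lhs => rw [h1]
        rw [ac_smul, ac_inv]
      refine ⟨?_, fun v hv => ?_⟩
      · show ac (h.1 * u.1 * h.1⁻¹) x0 = x0
        rw [ac_mul, ac_mul, hinv, ac_smul, ac_smul, hu.1, hν, smul_smul, inv_mul_cancel₀ hν0,
          one_smul]
      · have h1 : hf e (ac h.1⁻¹ v) x0 = 0 := by
          have h2 : hf e (ac h.1⁻¹ v) (ac h.1⁻¹ x0) = hf e v x0 := hf_T hK (h⁻¹).2 v x0
          rw [hinv, hf_smul_right, hv] at h2
          exact (mul_eq_zero.1 h2).resolve_left (bar_ne_zero (inv_ne_zero hν0))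
        obtain ⟨c, hc⟩ := hu.2 _ h1
        refine ⟨c * ν, ?_⟩
        show ac (h.1 * u.1 * h.1⁻¹) v = _
        rw [ac_mul, ac_mul, hc, ac_add, ac_inv', ac_smul, hν, smul_smul]
    · intro p r hp hr
      obtain ⟨y, hy0, hy, rfl, hyx⟩ := exists_rep' hK ht x0_ne x0_iso p hp
      obtain ⟨z, hz0, hz, rfl, hzx⟩ := exists_rep' hK ht x0_ne x0_iso r hr
      obtain ⟨g, hg, h1, h2, h3⟩ := hUNP K e hK he x0 y z x0_iso hy hz hyx hzx
      refine ⟨⟨g, hg⟩, ⟨⟨h1, h3⟩, ?_⟩, ?_⟩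
      · exact phi_mk hK _ y hy0 hy hz0 hz 1 (by rw [one_smul]; exact h2)
      · rintro u ⟨hu, huy⟩
        obtain ⟨ν, hν⟩ := phi_mk' hK u y hy0 hy hz0 hz huy
        have hw : (⟨g, hg⟩ : T K e)⁻¹ * u ∈ UU hK :=
          (UU hK).mul_mem ((UU hK).inv_mem ⟨h1, h3⟩) hu
        have h4 : ac ((⟨g, hg⟩ : T K e)⁻¹ * u).1 y = ν • y := by
          show ac (g⁻¹ * u.1) y = _
          have h5 : z = ac g y := h2.symm
          rw [ac_mul, hν, ac_smul, h5, ac_inv]
        have h5 := uniq_one hK hw hy hyx h4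
        exact (inv_mul_eq_one.1 h5).symm

end Run7.h781.RK
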