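import Pool.Agent.Run7.h477.RK.Iface

/-! Piece CNT of project RK (helper477): counting in the field with 16 elements. -/

set_option autoImplicit false
set_option linter.unusedSectionVars false

namespace Run7.h781.RK

open Matrix Run7.h477.RK

section
variable {K : Type} [Field K] [Fintype K] [DecidableEq K]

lemma nth_le (n : ℕ) (hn : 0 < n) (c : K) : (Finset.univ.filter fun a : K => a ^ n = c).card ≤ n := by
  have h1 : (Finset.univ.filter fun a : K => a ^ n = c) ⊆ (Polynomial.nthRoots n c).toFinset := by
    intro a ha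
    rw [Finset.mem_filter] at ha
    rw [Multiset.mem_toFinset, Polynomial.mem_nthRoots hn]
    exact ha.2
  refine (Finset.card_le_card h1).trans ?_
  exact (Multiset.toFinset_card_le _).trans (Polynomial.card_nthRoots n c)

variable (h16 : Fintype.card K = 16)
include h16

lemma pow15 {a : K} (ha : a ≠ 0) : a ^ 15 = 1 := by
  have := FiniteField.pow_card_sub_one_eq_one a ha
  rwa [h16] at this

lemma card_nz : (Finset.univ.filter fun a : K => a ≠ 0).card = 15 := by
  have h1 : (Finset.univ.filter fun a : K => a ≠ 0) = Finset.univ.erase 0 := by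
    ext a; simp
  rw [h1, Finset.card_erase_of_mem (Finset.mem_univ _), Finset.card_univ, h16]

/-- the fibres of the norm and the number of norms -/
lemma fib : (Finset.univ.filter fun c : K => c ^ 3 = 1).card = 3 ∧
    ∀ c : K, c ^ 3 = 1 → (Finset.univ.filter fun a : K => a ^ 5 = c).card = 5 := by
  have h3 : (Finset.univ.filter fun c : K => c ^ 3 = 1).card ≤ 3 := nth_le 3 (by norm_num) 1
  have hsum := Finset.card_eq_sum_card_fiberwise (f := fun a : K => a ^ 5)
    (s := Finset.univ.filter fun a : K => a ≠ 0) (t := Finset.univ.filter fun c : K => c ^ 3 = 1) (by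
      intro a ha
      rw [Finset.mem_coe, Finset.mem_filter] at ha
      rw [Finset.mem_coe, Finset.mem_filter]
      refine ⟨Finset.mem_univ _, ?_⟩
      show (a ^ 5) ^ 3 = 1
      rw [← pow_mul]
      exact pow15 h16 ha.2)
  rw [card_nz h16] at hsum
  have hf : ∀ c : K, c ^ 3 = 1 → (Finset.univ.filter fun a : K => a ≠ 0).filter (fun a => a ^ 5 = c) =
      Finset.univ.filter fun a : K => a ^ 5 = c := by
    intro c hc
    ext a
    simp only [Finset.mem_filter, Finset.mem_univ, true_and]
    refine ⟨fun h => h.2, fun h => ⟨?_, h⟩⟩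
    rintro rfl
    rw [zero_pow (by norm_num)] at h
    rw [← h, zero_pow (by norm_num)] at hc
    exact zero_ne_one hc
  have hsum' : 15 = ∑ c ∈ Finset.univ.filter (fun c : K => c ^ 3 = 1),
      (Finset.univ.filter fun a : K => a ^ 5 = c).card := by
    refine hsum.trans (Finset.sum_congr rfl fun c hc => ?_)
    rw [hf c (Finset.mem_filter.1 hc).2]
  have hle : ∀ c ∈ Finset.univ.filter (fun c : K => c ^ 3 = 1),
      (Finset.univ.filter fun a : K => a ^ 5 = c).card ≤ 5 := fun c _ => nth_le 5 (by norm_num) c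
  have hle2 : 15 ≤ (Finset.univ.filter fun c : K => c ^ 3 = 1).card * 5 := by
    calc 15 = _ := hsum'
      _ ≤ ∑ _c ∈ Finset.univ.filter (fun c : K => c ^ 3 = 1), 5 := Finset.sum_le_sum hle
      _ = _ := by rw [Finset.sum_const, smul_eq_mul]
  have hc3 : (Finset.univ.filter fun c : K => c ^ 3 = 1).card = 3 := by omega
  refine ⟨hc3, fun c hc => ?_⟩
  by_contra hne
  have hlt : (Finset.univ.filter fun a : K => a ^ 5 = c).card < 5 :=
    lt_of_le_of_ne (nth_le 5 (by norm_num) c) hne
  have h1 : ∑ c ∈ Finset.univ.filter (fun c : K => c ^ 3 = 1),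
      (Finset.univ.filter fun a : K => a ^ 5 = c).card <
      ∑ _c ∈ Finset.univ.filter (fun c : K => c ^ 3 = 1), 5 :=
    Finset.sum_lt_sum hle ⟨c, Finset.mem_filter.2 ⟨Finset.mem_univ _, hc⟩, hlt⟩
  rw [← hsum', Finset.sum_const, hc3] at h1
  norm_num at h1

variable [CharP K 2]

/-- the number of `a` with `a ^ 5 + b ^ 5 = 1` -/
lemma fib2 (b : K) : (Finset.univ.filter fun a : K => a ^ 5 + b ^ 5 = 1).card =
    if b ^ 5 = 1 then 1 else 5 := by
  split_ifs with h
  · have : (Finset.univ.filter fun a : K => a ^ 5 + b ^ 5 = 1) = {0} := by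
      ext a
      simp only [Finset.mem_filter, Finset.mem_univ, true_and, Finset.mem_singleton, h]
      constructor
      · intro h1
        have : a ^ 5 = 0 := by linear_combination h1
        exact pow_eq_zero_iff (by norm_num) |>.1 this
      · rintro rfl; simp
    rw [this, Finset.card_singleton]
  · have h2 : (Finset.univ.filter fun a : K => a ^ 5 + b ^ 5 = 1) =
        Finset.univ.filter fun a : K => a ^ 5 = 1 + b ^ 5 := by
      ext a
      simp only [Finset.mem_filter, Finset.mem_univ, true_and]
      have h3 := add_self0 (b ^ 5)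
      constructor
      · intro h1; linear_combination h1 - h3
      · intro h1; linear_combination h1 + h3
    rw [h2]
    refine (fib h16).2 _ ?_
    by_cases hb : b = 0
    · subst hb; ring
    · have h4 : (b ^ 5) ^ 3 = 1 := by rw [← pow_mul]; exact pow15 h16 hb
      have h5 : (b ^ 5 - 1) * ((b ^ 5) ^ 2 + b ^ 5 + 1) = 0 := by linear_combination h4
      rcases mul_eq_zero.1 h5 with h6 | h6
      · exact absurd (sub_eq_zero.1 h6) h
      · have h7 := add_self0 ((b ^ 5) ^ 2)
        have h8 : 1 + b ^ 5 = (b ^ 5) ^ 2 := by linear_combination h6 - h7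
        rw [h8]
        linear_combination ((b ^ 5) ^ 3 + 1) * h4

lemma cnt1 : (Finset.univ.filter fun p : K × K => p.1 ^ 5 + p.2 ^ 5 = 1).card = 60 := by
  rw [Finset.card_eq_sum_card_fiberwise (f := Prod.snd) (t := Finset.univ)
    (fun _ _ => Finset.mem_coe.2 (Finset.mem_univ _))]
  have h1 : ∀ b : K, ((Finset.univ.filter fun p : K × K => p.1 ^ 5 + p.2 ^ 5 = 1).filter
      fun p => p.2 = b).card = if b ^ 5 = 1 then 1 else 5 := by
    intro b
    rw [← fib2 h16 b]
    refine Finset.card_bij (fun p _ => p.1) ?_ ?_ ?_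
    · intro p hp
      simp only [Finset.mem_filter, Finset.mem_univ, true_and] at hp ⊢
      rw [← hp.2]; exact hp.1
    · intro p hp p' hp' h
      simp only [Finset.mem_filter, Finset.mem_univ, true_and] at hp hp'
      exact Prod.ext h (hp.2.trans hp'.2.symm)
    · intro a ha
      simp only [Finset.mem_filter, Finset.mem_univ, true_and] at ha
      exact ⟨(a, b), by simp [ha], rfl⟩
  simp only [h1]
  rw [Finset.sum_ite, Finset.sum_const, Finset.sum_const, (fib h16).2 1 (one_pow 3)]
  have h2 : (Finset.univ.filter fun b : K => ¬ b ^ 5 = 1).card = 11 := by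
    have := Finset.card_filter_add_card_filter_not (s := (Finset.univ : Finset K))
      (p := fun b => b ^ 5 = 1)
    rw [(fib h16).2 1 (one_pow 3), Finset.card_univ, h16] at this
    omega
  rw [h2]
  norm_num

end

section lin
variable {K : Type} [Field K] [Finite K] [CharP K 2]

/-- the linear form `y ↦ hf y x` -/
def lf (e : ℕ) (x : Fin 3 → K) : (Fin 3 → K) →ₗ[K] K where
  toFun y := hf e y x
  map_add' y z := hf_add_left e y z x
  map_smul' c y := hf_smul_left e c y x

lemma lf_ne {e : ℕ} {x : Fin 3 → K} (hx : x ≠ 0) : lf e x ≠ 0 := by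
  obtain ⟨i, hi⟩ := Function.ne_iff.1 hx
  intro h
  have h1 := LinearMap.congr_fun h (Pi.single i 1)
  change hf e (Pi.single i 1) x = 0 at h1
  rw [hf_single_left] at h1
  exact hi (bar_eq_zero.1 h1)

lemma card_ker {V : Type} [AddCommGroup V] [Module K V] [Finite V] (f : V →ₗ[K] K) (hf : f ≠ 0) :
    Nat.card V = Nat.card K * Nat.card (LinearMap.ker f) := by
  have hs : Function.Surjective f := LinearMap.surjective hf
  have h1 := Submodule.card_eq_card_quotient_mul_card (LinearMap.ker f)
  rw [h1, Nat.card_congr (f.quotKerEquivOfSurjective hs).toEquiv]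
  exact mul_comm _ _

end lin

/-- Piece CNT. -/
theorem t_CNT : S_CNT := by
  intro K _ _ _ hK
  classical
  have := Fintype.ofFinite K
  have h16 : Fintype.card K = 16 := by rw [← Nat.card_eq_fintype_card]; exact hK
  have hK' : Nat.card K = 2 ^ (2 * 2) := by rw [hK]; norm_num
  have hN : ∀ a : K, a * bar 2 a = a ^ 5 := fun a => by simp only [bar]; ring
  have hV : Nat.card (Fin 3 → K) = 16 ^ 3 := by
    rw [Nat.card_fun, hK]; simp
  have hset : ∀ x y : Fin 3 → K, hf 2 x y = 0 ↔ lf 2 x y = 0 := by
    intro x y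
    change hf 2 x y = 0 ↔ hf 2 y x = 0
    rw [← hf_bar hK' y x, bar_eq_zero]
  refine ⟨?_, ?_, ?_, ?_, ?_⟩
  · rw [Nat.card_eq_fintype_card, Fintype.card_subtype]
    simp only [hN]
    exact cnt1 h16
  · rw [Nat.card_eq_fintype_card, Fintype.card_subtype]
    simp only [hN]
    exact ((fib h16).2 1 (one_pow 3)).le
  · intro x x' hx hx'
    have h1 := card_ker (lf 2 x) (lf_ne hx)
    rw [hV, hK] at h1
    have h2 : (lf 2 x').comp (LinearMap.ker (lf 2 x)).subtype ≠ 0 := by
      intro h0
      have h3 : LinearMap.ker (lf 2 x) ≤ LinearMap.ker (lf 2 x') := by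
        intro y hy
        have := LinearMap.congr_fun h0 ⟨y, hy⟩
        exact this
      obtain ⟨i, hi⟩ := Function.ne_iff.1 hx
      -- `lf x' = c lf x`
      have hi' : bar 2 (x i) ≠ 0 := bar_ne_zero hi
      set c : K := bar 2 (x' i) / bar 2 (x i) with hc
      have h4 : ∀ y, lf 2 x' y = c * lf 2 x y := by
        intro y
        have h5 : y - (lf 2 x y / bar 2 (x i)) • (Pi.single i 1 : Fin 3 → K) ∈
            LinearMap.ker (lf 2 x) := by
          rw [LinearMap.mem_ker, map_sub, map_smul]
          have : lf 2 x (Pi.single i 1) = bar 2 (x i) := hf_single_left 2 x i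
          rw [this, smul_eq_mul]
          field_simp
          ring
        have h6 := h3 h5
        rw [LinearMap.mem_ker, map_sub, map_smul] at h6
        have : lf 2 x' (Pi.single i 1) = bar 2 (x' i) := hf_single_left 2 x' i
        rw [this, smul_eq_mul, sub_eq_zero] at h6
        rw [h6, hc]
        field_simp
      refine hx' (bar 2 c) ?_
      funext l
      have h7 := h4 (Pi.single l 1)
      have e1 : lf 2 x' (Pi.single l 1) = bar 2 (x' l) := hf_single_left 2 x' l
      have e2 : lf 2 x (Pi.single l 1) = bar 2 (x l) := hf_single_left 2 x l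
      rw [e1, e2] at h7
      have h8 := congrArg (bar 2) h7
      rw [bar_bar hK', bar_mul, bar_bar hK'] at h8
      rw [h8]; rfl
    have h3 := card_ker _ h2
    have h4 : Nat.card {y : Fin 3 → K // hf 2 x y = 0 ∧ hf 2 x' y = 0} =
        Nat.card (LinearMap.ker ((lf 2 x').comp (LinearMap.ker (lf 2 x)).subtype)) := by
      refine Nat.card_congr ⟨fun y => ⟨⟨y.1, (hset x y.1).1 y.2.1⟩, (hset x' y.1).1 y.2.2⟩,
        fun y => ⟨y.1.1, (hset x _).2 y.1.2, (hset x' _).2 y.2⟩, fun _ => rfl, fun _ => rfl⟩
    rw [h4]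
    rw [hK] at h3
    omega
  · intro x hx
    have h1 := card_ker (lf 2 x) (lf_ne hx)
    rw [hV, hK] at h1
    have h4 : Nat.card {y : Fin 3 → K // hf 2 x y = 0} = Nat.card (LinearMap.ker (lf 2 x)) := by
      refine Nat.card_congr ⟨fun y => ⟨y.1, (hset x y.1).1 y.2⟩,
        fun y => ⟨y.1, (hset x _).2 y.2⟩, fun _ => rfl, fun _ => rfl⟩
    rw [h4]
    omega
  · rw [Nat.card_eq_fintype_card, Fintype.card_subtype, ← (fib h16).1]
    congr 1
    ext c
    simp only [Finset.mem_filter, Finset.mem_univ, true_and, bar]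
    constructor
    · rintro ⟨h0, h1⟩
      have h2 : c * c ^ 3 = c * 1 := by linear_combination h1
      exact mul_left_cancel₀ h0 h2
    · intro h
      refine ⟨?_, ?_⟩
      · rintro rfl
        rw [zero_pow (by norm_num)] at h
        exact zero_ne_one h
      · linear_combination c * h

end Run7.h781.RK
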