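import Pool.Agent.Run7.h477.RK.Iface

/-! Piece PL (and PL') of project RK (helper477): plane rotations are products of at most two
transvections. -/

set_option autoImplicit false
set_option linter.unusedSectionVars false

namespace Run7.h781.RK

open Matrix Run7.h477.RK

section
variable {K : Type} [Field K]

/-- basis vector -/
abbrev E (i : Fin 3) : Fin 3 → K := Pi.single i 1

lemma pl_i (e : ℕ) (i j : Fin 3) (hij : i ≠ j) (a b : K) :
    (pl e i j a b).mulVec (E i) = a • E i + b • E j := by
  funext l
  rw [Matrix.mulVec_single_one]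
  simp only [Matrix.col_apply, pl, if_true, Pi.add_apply, Pi.smul_apply, smul_eq_mul,
    Pi.single_apply]
  by_cases h1 : l = i
  · simp [h1, hij]
  · by_cases h2 : l = j
    · simp [h2, hij.symm]
    · simp [h1, h2]

lemma pl_j (e : ℕ) (i j : Fin 3) (hij : i ≠ j) (a b : K) :
    (pl e i j a b).mulVec (E j) = bar e b • E i + bar e a • E j := by
  funext l
  rw [Matrix.mulVec_single_one]
  simp only [Matrix.col_apply, pl, if_true, Pi.add_apply, Pi.smul_apply, smul_eq_mul,
    Pi.single_apply, if_neg hij.symm]
  by_cases h1 : l = i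
  · simp [h1, hij]
  · by_cases h2 : l = j
    · simp [h2, hij.symm]
    · simp [h1, h2]

lemma pl_k (e : ℕ) (i j m : Fin 3) (hi : m ≠ i) (hj : m ≠ j) (a b : K) :
    (pl e i j a b).mulVec (E m) = E m := by
  funext l
  rw [Matrix.mulVec_single_one]
  simp only [Matrix.col_apply, pl, if_neg hi, if_neg hj, Pi.single_apply]

variable [CharP K 2]

lemma hf_Ei (e : ℕ) (i j : Fin 3) (hij : i ≠ j) (θ : K) :
    hf e (E i : Fin 3 → K) (E i + θ • E j) = 1 := by
  rw [hf_single_left]
  simp [hij, bar_one]

lemma hf_Ej (e : ℕ) (i j : Fin 3) (hij : i ≠ j) (θ : K) :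
    hf e (E j : Fin 3 → K) (E i + θ • E j) = bar e θ := by
  rw [hf_single_left]
  simp [hij.symm]

lemma hf_Ek (e : ℕ) (i j m : Fin 3) (hi : m ≠ i) (hj : m ≠ j) (θ : K) :
    hf e (E m : Fin 3 → K) (E i + θ • E j) = 0 := by
  rw [hf_single_left]
  simp [hi, hj, bar_zero]

end

/-- Piece PL'. -/
theorem t_PL' : S_PL' := by
  intro K _ _ _ e hK i j hij D hD a b hab
  by_cases ha : a = 0
  · subst ha
    rw [zero_mul, zero_add] at hab
    obtain ⟨g, hg, hgv⟩ := hD b 1 hab (bar_one e)
    refine ⟨g, hg, ?_⟩
    rw [hgv]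
    refine Matrix.ext_of_mulVec_single fun m => ?_
    rw [tr_mulVec]
    by_cases h1 : m = i
    · subst h1
      rw [pl_i e m j hij, hf_Ei e m j hij, mul_one, one_smul, zero_smul, zero_add, ← add_assoc]
      have : (E m : Fin 3 → K) + E m = 0 := by funext l; exact add_self0 _
      rw [this, zero_add]
    · by_cases h2 : m = j
      · subst h2
        rw [pl_j e i m hij, hf_Ej e i m hij, one_mul, bar_zero, zero_smul, add_zero, smul_add,
          smul_smul, mul_comm (bar e b) b, hab, one_smul, add_comm (bar e b • E i), ← add_assoc]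
        have : (E m : Fin 3 → K) + E m = 0 := by funext l; exact add_self0 _
        rw [this, zero_add]
      · rw [pl_k e i j m h1 h2, hf_Ek e i j m h1 h2, mul_zero, zero_smul, add_zero]
  · obtain ⟨s, hs, hsb⟩ := exists_sqrt_bar (bar_norm hK b)
    -- the auxiliary number of norm one
    obtain ⟨g₀, hg1, hg2, hg3⟩ : ∃ g₀ : K, g₀ * bar e g₀ = 1 ∧ g₀ * bar e b = s ∧
        bar e g₀ * b = s := by
      by_cases hb : b = 0
      · subst hb
        have h0 : s = 0 := by
          rw [bar_zero, mul_zero] at hs
          exact pow_eq_zero_iff (two_ne_zero) |>.1 hs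
        exact ⟨1, by rw [bar_one, one_mul], by rw [h0, bar_zero, mul_zero], by rw [h0, mul_zero]⟩
      · have hb' : bar e b ≠ 0 := bar_ne_zero hb
        refine ⟨s / bar e b, ?_, ?_, ?_⟩
        · rw [bar_div, hsb, bar_bar hK]
          field_simp
          linear_combination hs
        · field_simp
        · rw [bar_div, hsb, bar_bar hK]
          field_simp
    have hNa : a * bar e a = 1 + s ^ 2 := by
      have h := add_self0 (b * bar e b)
      linear_combination hab - h - hs
    have ha' : bar e a ≠ 0 := bar_ne_zero ha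
    set θ : K := (b + g₀) / a with hθ
    have haθ : a * θ = b + g₀ := by rw [hθ]; field_simp
    have haθ' : bar e a * bar e θ = bar e b + bar e g₀ := by
      rw [← bar_mul, haθ, bar_add]
    have hN : (b + g₀) * (bar e b + bar e g₀) = 1 + s ^ 2 := by
      have h := add_self0 s
      linear_combination -hs + hg1 + hg2 + hg3 + h
    have hθ1 : θ * bar e θ = 1 := by
      have h1 : (a * bar e a) * (θ * bar e θ) = (a * bar e a) * 1 := by
        linear_combination (bar e a * bar e θ) * haθ + (b + g₀) * haθ' + hN - hNa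
      exact mul_left_cancel₀ (mul_ne_zero ha ha') h1
    obtain ⟨u1, hu1, hv1⟩ := hD θ (1 + s) hθ1 (by rw [bar_add, bar_one, hsb])
    obtain ⟨u2, hu2, hv2⟩ := hD g₀ 1 hg1 (bar_one e)
    refine ⟨u1 * u2, D.mul_mem hu1 hu2, ?_⟩
    rw [Units.val_mul, hv1, hv2]
    have hEE : ∀ m : Fin 3, (E m : Fin 3 → K) + E m = 0 := fun m => by
      funext l; exact add_self0 _
    refine Matrix.ext_of_mulVec_single fun m => ?_
    rw [← Matrix.mulVec_mulVec, tr_mulVec, tr_mulVec]
    by_cases h1 : m = i
    · subst h1
      rw [pl_i e m j hij, hf_Ei e m j hij]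
      have e1 : (E m : Fin 3 → K) + (1 * 1 : K) • (E m + g₀ • E j) = g₀ • E j := by
        rw [mul_one, one_smul, ← add_assoc, hEE, zero_add]
      rw [e1, hf_smul_left, hf_Ej e m j hij]
      have e2 : (1 + s) * (g₀ * bar e θ) = a := by
        have h2 : bar e a * ((1 + s) * (g₀ * bar e θ)) = bar e a * a := by
          have h3 := add_self0 s
          linear_combination (1 + s) * g₀ * haθ' + (1 + s) * hg2 + (1 + s) * hg1 + h3 - hNa
        exact mul_left_cancel₀ ha' h2
      rw [e2, smul_add, smul_smul, haθ]
      have e3 : g₀ + (b + g₀) = b := by linear_combination add_self0 g₀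
      calc g₀ • (E j : Fin 3 → K) + (a • E m + (b + g₀) • E j) =
          a • E m + (g₀ + (b + g₀)) • E j := by module
        _ = a • E m + b • E j := by rw [e3]
    · by_cases h2 : m = j
      · subst h2
        rw [pl_j e i m hij, hf_Ej e i m hij]
        have e1 : (E m : Fin 3 → K) + (1 * bar e g₀) • (E i + g₀ • E m) = bar e g₀ • E i := by
          rw [one_mul, smul_add, smul_smul, mul_comm (bar e g₀) g₀, hg1, one_smul,
            add_comm (bar e g₀ • E i), ← add_assoc, hEE, zero_add]
        rw [e1, hf_smul_left, hf_Ei e i m hij, mul_one]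
        have e2 : bar e g₀ + (1 + s) * bar e g₀ = bar e b := by
          have h3 : g₀ * (bar e g₀ + (1 + s) * bar e g₀) = g₀ * bar e b := by
            have h4 := add_self0 (1 : K)
            linear_combination (2 + s) * hg1 + h4 - hg2
          have hg0 : g₀ ≠ 0 := by
            rintro rfl
            rw [zero_mul] at hg1
            exact zero_ne_one hg1
          exact mul_left_cancel₀ hg0 h3
        have e3 : (1 + s) * bar e g₀ * θ = bar e a := by
          have h3 : a * ((1 + s) * bar e g₀ * θ) = a * bar e a := by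
            have h4 := add_self0 s
            linear_combination (1 + s) * bar e g₀ * haθ + (1 + s) * hg3 + (1 + s) * hg1 + h4 - hNa
          exact mul_left_cancel₀ ha h3
        calc bar e g₀ • (E i : Fin 3 → K) + ((1 + s) * bar e g₀) • (E i + θ • E m) =
            (bar e g₀ + (1 + s) * bar e g₀) • E i + ((1 + s) * bar e g₀ * θ) • E m := by module
          _ = bar e b • E i + bar e a • E m := by rw [e2, e3]
      · rw [pl_k e i j m h1 h2, hf_Ek e i j m h1 h2, mul_zero, zero_smul, add_zero,
          hf_Ek e i j m h1 h2, mul_zero, zero_smul, add_zero]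

/-- Piece PL. -/
theorem t_PL : S_PL := by
  intro K _ _ _ e hK i j hij a b hab
  refine t_PL' K e hK i j hij (T K e) ?_ a b hab
  intro θ c hθ hc
  have hx : hf e ((Pi.single i 1 : Fin 3 → K) + θ • (Pi.single j 1 : Fin 3 → K))
      ((Pi.single i 1 : Fin 3 → K) + θ • (Pi.single j 1 : Fin 3 → K)) = 0 := by
    rw [hf_add_left, hf_smul_left, hf_Ei e i j hij, hf_Ej e i j hij, hθ]
    exact add_self0 1
  exact ⟨trU hx c, trU_mem hx hc, trU_val hx c⟩

end Run7.h781.RK
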